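import Pool.Agent.Lib_MP_92ef0c_pc.Cnt

/-!
# Many integers `n`
-/

set_option autoImplicit false

namespace Pool.Agent.Spc

open Finset ArithmeticFunction Pool.Agent.Spl Filter

/-- the number of divisors is at most `2 ^ Ω` -/
theorem div_le_pow (N : ℕ) (hN : N ≠ 0) :
    N.divisors.card ≤ 2 ^ cardFactors N := by
  induction N using Nat.recOnMul with
  | zero => exact absurd rfl hN
  | one => simp
  | prime p hp =>
    rw [cardFactors_apply_prime hp, Nat.Prime.divisors hp]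
    exact Finset.card_le_two
  | mul a b ha hb =>
    have ha0 : a ≠ 0 := left_ne_zero_of_mul hN
    have hb0 : b ≠ 0 := right_ne_zero_of_mul hN
    rw [cardFactors_mul ha0 hb0, pow_add, Nat.divisors_mul]
    exact (Finset.card_mul_le).trans (Nat.mul_le_mul (ha ha0) (hb hb0))

theorem pow_eq_aux (L l T ε A' : ℝ) (hl : 0 < l) (hL : Real.log l = L) (hT : T = (1 + ε) * L)
    (hA : 4 * Real.log 2 * (1 + ε) = A') : (2 : ℝ) ^ (4 * T) = l ^ A' := by
  rw [Real.rpow_def_of_pos (by norm_num : (0 : ℝ) < 2), Real.rpow_def_of_pos hl, hL, hT, ← hA]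
  congr 1
  ring

theorem fin_ineq (c x l A A' : ℝ) (D : ℕ) (hc : 0 < c) (hl : 0 < l) (hA : 2 / c ≤ l ^ (A - A'))
    (hf : c / 2 * x ≤ l ^ A' * D) : x / l ^ A ≤ D := by
  have hp1 : 0 < l ^ A' := Real.rpow_pos_of_pos hl _
  have hp2 : 0 < l ^ A := Real.rpow_pos_of_pos hl _
  rw [div_le_iff₀ hp2]
  have hsplit : l ^ A = l ^ (A - A') * l ^ A' := by
    rw [← Real.rpow_add hl]; congr 1; ring
  have h5 : (2 / c) * (l ^ A' * D) ≤ l ^ (A - A') * (l ^ A' * D) :=
    mul_le_mul_of_nonneg_right hA (by positivity)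
  have h6 : (2 / c) * (c / 2 * x) ≤ (2 / c) * (l ^ A' * D) :=
    mul_le_mul_of_nonneg_left hf (by positivity)
  have h7 : (2 / c) * (c / 2 * x) = x := by field_simp
  rw [h7] at h6
  rw [hsplit]
  linarith

open Classical in
/-- many `n` -/
theorem many_n (h k n0 : ℕ) (hh : 0 < h) (α β γ δ : ℝ) (hα : 0 < α) (hβ : 0 < β) (hγ : 0 < γ) (hδ : 0 < δ)
    (P : Q4 → Prop) (c x0 : ℝ) (hc : 0 < c)
    (H : ∀ x : ℝ, x0 ≤ x → c * x ≤ (Set.ncard {e : Q4 | e ∈ WS h k n0 α β γ δ x ∧ P e} : ℝ))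
    (A : ℝ) (hA : 4 * Real.log 2 < A) :
    ∀ᶠ x : ℝ in atTop, x / Real.log x ^ A ≤
      (Set.ncard {n : ℕ | (n : ℝ) ≤ x ∧ ∃ e : Q4, e.b * e.c = n ∧ e ∈ WS h k n0 α β γ δ x ∧ P e} : ℝ) := by
  have hl2 : 0 < Real.log 2 := Real.log_pos (by norm_num)
  -- choice of ε
  obtain ⟨A', hA1, hA2⟩ := exists_between hA
  set ε : ℝ := (A' - 4 * Real.log 2) / (4 * Real.log 2) with hε
  have hε0 : 0 < ε := by rw [hε]; apply div_pos <;> linarith
  have hεA : 4 * Real.log 2 * (1 + ε) = A' := by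
    rw [hε]; field_simp; ring
  obtain ⟨x1, hx1, hbad⟩ := bad_all h k n0 hh α β γ δ hα hβ hγ hδ ε (c / 2) hε0 (by positivity)
  have hlim : Tendsto (fun x : ℝ => Real.log x ^ (A - A')) atTop atTop :=
    (tendsto_rpow_atTop (by linarith : 0 < A - A')).comp Real.tendsto_log_atTop
  filter_upwards [eventually_ge_atTop x0, eventually_ge_atTop x1, eventually_ge_atTop (16 : ℝ),
    hlim.eventually_ge_atTop (2 / c)] with x hxx0 hxx1 hx16 hxA
  have hx0 : 1 ≤ x := by linarith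
  have hH := H x hxx0
  have hB := hbad x hxx1
  set L := Real.log (Real.log x) with hL
  set T := (1 + ε) * L with hT
  have hlogx : 1 < Real.log x := by
    have h4 : Real.exp 1 < x := by
      have := Real.exp_one_lt_d9
      linarith
    have := Real.log_lt_log (Real.exp_pos 1) h4
    rwa [Real.log_exp] at this
  have hL0 : 0 < L := Real.log_pos hlogx
  have hfin : (WS h k n0 α β γ δ x).Finite := WS_finite hh hα hβ hγ hδ hx0
  set S := {e : Q4 | e ∈ WS h k n0 α β γ δ x ∧ P e} with hS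
  set B := {e : Q4 | e ∈ WS h k n0 α β γ δ x ∧
      ¬ ((cardFactors e.a : ℝ) ≤ T ∧ (cardFactors e.b : ℝ) ≤ T ∧ (cardFactors e.c : ℝ) ≤ T ∧
        (cardFactors e.d : ℝ) ≤ T)} with hBd
  set G := {e : Q4 | (e ∈ WS h k n0 α β γ δ x ∧ P e) ∧
      ((cardFactors e.a : ℝ) ≤ T ∧ (cardFactors e.b : ℝ) ≤ T ∧ (cardFactors e.c : ℝ) ≤ T ∧
        (cardFactors e.d : ℝ) ≤ T)} with hG
  have hSf : S.Finite := hfin.subset fun e he => he.1
  have hBf : B.Finite := hfin.subset fun e he => he.1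
  have hGf : G.Finite := hfin.subset fun e he => he.1.1
  have hSsub : S ⊆ G ∪ B := by
    intro e he
    by_cases hg : ((cardFactors e.a : ℝ) ≤ T ∧ (cardFactors e.b : ℝ) ≤ T ∧ (cardFactors e.c : ℝ) ≤ T ∧
        (cardFactors e.d : ℝ) ≤ T)
    · left; exact ⟨he, hg⟩
    · right; exact ⟨he.1, hg⟩
  have hGc : c / 2 * x ≤ (G.ncard : ℝ) := by
    have h1 : (S.ncard : ℝ) ≤ G.ncard + B.ncard := by
      exact_mod_cast (Set.ncard_le_ncard hSsub (hGf.union hBf)).trans (Set.ncard_union_le _ _)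
    linarith
  -- the map to n
  set GF := hGf.toFinset with hGF
  have hGFm : ∀ e, e ∈ GF ↔ e ∈ G := fun e => Set.Finite.mem_toFinset hGf
  set N0 : ℕ := 2 ^ ⌊4 * T⌋₊ with hN0
  have hfib : ∀ n ∈ GF.image (fun e : Q4 => e.b * e.c), (GF.filter (fun e : Q4 => e.b * e.c = n)).card ≤ N0 := by
    intro n hn
    rw [mem_image] at hn
    obtain ⟨e0, he0, rfl⟩ := hn
    have he0' := (hGFm e0).1 he0
    obtain ⟨⟨hw, hP⟩, t1, t2, t3, t4⟩ := he0'
    obtain ⟨ha, hb, hc', hd, -, -⟩ := sizes hα hγ hx0 hw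
    have hadeq := hw.1.1
    have hn0 : e0.b * e0.c ≠ 0 := (Nat.mul_pos hb hc').ne'
    have hm0 : e0.a * e0.d ≠ 0 := (Nat.mul_pos ha hd).ne'
    have hcard : (GF.filter (fun e : Q4 => e.b * e.c = e0.b * e0.c)).card ≤
        ((e0.a * e0.d).divisors ×ˢ (e0.b * e0.c).divisors).card := by
      refine card_le_card_of_injOn (fun e : Q4 => (e.a, e.b)) ?_ ?_
      · intro e he
        rw [Finset.mem_coe, mem_filter] at he
        have he' := ((hGFm e).1 he.1).1.1
        rw [Finset.mem_coe, mem_product, Nat.mem_divisors, Nat.mem_divisors]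
        refine ⟨⟨?_, hm0⟩, ⟨?_, hn0⟩⟩
        · rw [hadeq, ← he.2, ← he'.1.1]
          exact dvd_mul_right _ _
        · rw [← he.2]
          exact dvd_mul_right _ _
      · rintro ⟨a, b, c, d⟩ he ⟨a', b', c', d'⟩ he' hee
        rw [Finset.mem_coe, mem_filter] at he he'
        simp only [Prod.mk.injEq] at hee
        obtain ⟨rfl, rfl⟩ := hee
        have w1 := ((hGFm _).1 he.1).1.1
        have w2 := ((hGFm _).1 he'.1).1.1
        have s1 := sizes hα hγ hx0 w1
        have v1 := w1.1.1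
        have v2 := w2.1.1
        have e1 := he.2
        have e2 := he'.2
        simp only at s1 v1 v2 e1 e2
        have hcc : c = c' := Nat.eq_of_mul_eq_mul_left s1.2.1 (e1.trans e2.symm)
        subst hcc
        have hdd : d = d' := Nat.eq_of_mul_eq_mul_left s1.1 (v1.trans v2.symm)
        subst hdd
        rfl
    refine hcard.trans ?_
    rw [card_product]
    have h1 := div_le_pow _ hm0
    have h2 := div_le_pow _ hn0
    refine (Nat.mul_le_mul h1 h2).trans ?_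
    rw [← pow_add, hN0]
    apply Nat.pow_le_pow_right (by norm_num)
    apply Nat.le_floor
    rw [cardFactors_mul ha.ne' hd.ne', cardFactors_mul hb.ne' hc'.ne']
    push_cast
    linarith
  have hmain := card_le_mul_card_image GF N0 hfib
  have hGn : G.ncard = GF.card := Set.ncard_eq_toFinset_card _ hGf
  have himg : (GF.image (fun e : Q4 => e.b * e.c)).card ≤
      Set.ncard {n : ℕ | (n : ℝ) ≤ x ∧ ∃ e : Q4, e.b * e.c = n ∧ e ∈ WS h k n0 α β γ δ x ∧ P e} := by
    rw [← Set.ncard_coe_finset]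
    refine Set.ncard_le_ncard ?_ ((Set.finite_Iic ⌊x⌋₊).subset fun n hn => Nat.le_floor hn.1)
    intro n hn
    rw [Finset.mem_coe, mem_image] at hn
    obtain ⟨e, he, rfl⟩ := hn
    have he' := ((hGFm e).1 he).1
    exact ⟨he'.1.1.2.2, e, rfl, he'.1, he'.2⟩
  set D := Set.ncard {n : ℕ | (n : ℝ) ≤ x ∧ ∃ e : Q4, e.b * e.c = n ∧ e ∈ WS h k n0 α β γ δ x ∧ P e} with hD
  have hN0r : (N0 : ℝ) ≤ Real.log x ^ A' := by
    rw [hN0]
    push_cast
    have h1 : (2 : ℝ) ^ ⌊4 * T⌋₊ ≤ (2 : ℝ) ^ (4 * T) := by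
      rw [← Real.rpow_natCast]
      apply Real.rpow_le_rpow_of_exponent_le (by norm_num)
      exact Nat.floor_le (by positivity)
    refine h1.trans (le_of_eq ?_)
    exact pow_eq_aux L (Real.log x) T ε A' (by linarith) hL.symm hT hεA
  have hm1 : (G.ncard : ℝ) ≤ (N0 : ℝ) * ((GF.image (fun e : Q4 => e.b * e.c)).card : ℝ) := by
    rw [hGn, ← Nat.cast_mul]
    exact Nat.cast_le.2 hmain
  have hm2 : (N0 : ℝ) * ((GF.image (fun e : Q4 => e.b * e.c)).card : ℝ) ≤ Real.log x ^ A' * (D : ℝ) :=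
    mul_le_mul hN0r (Nat.cast_le.2 himg) (Nat.cast_nonneg _) (Real.rpow_nonneg (by linarith) _)
  have hfinal : c / 2 * x ≤ Real.log x ^ A' * D := hGc.trans (hm1.trans hm2)
  exact fin_ineq c x (Real.log x) A A' D hc (by linarith) hxA hfinal

end Pool.Agent.Spc
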