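import Pool.Agent.Lib_MP_92ef0c_pc.Tur
import Pool.Agent.Lib_MP_92ef0c_sp.Fin4H

/-!
# From matrices `a d = b c + h` to the integers `n = b c`
-/

set_option autoImplicit false

namespace Pool.Agent.Spc

open Finset ArithmeticFunction Pool.Agent.Spl

/-- sizes of `a`, `b` -/
theorem sizes {h k n0 : ℕ} {α β γ δ x : ℝ} (hα : 0 < α) (hγ : 0 < γ) (hx : 1 ≤ x) {e : Q4}
    (he : e ∈ WS h k n0 α β γ δ x) :
    0 < e.a ∧ 0 < e.b ∧ 0 < e.c ∧ 0 < e.d ∧
    (e.a : ℝ) ≤ (1 + (1 + h) / α + 1 / γ) * Real.sqrt x ∧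
    (e.b : ℝ) ≤ (1 + (1 + h) / α + 1 / γ) * Real.sqrt x := by
  obtain ⟨⟨h1, h2, h3⟩, -, ⟨h4, -⟩, ⟨h6, -⟩⟩ := he
  have hb : 0 < e.b := Nat.pos_of_mul_pos_left h2 |> fun _ => Nat.pos_of_ne_zero (fun h0 => by simp [h0] at h2)
  have hc : 0 < e.c := Nat.pos_of_ne_zero (fun h0 => by simp [h0] at h2)
  have had : 0 < e.a * e.d := by rw [h1]; positivity
  have ha : 0 < e.a := Nat.pos_of_ne_zero (fun h0 => by simp [h0] at had)
  have hd : 0 < e.d := Nat.pos_of_ne_zero (fun h0 => by simp [h0] at had)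
  have har : (0 : ℝ) < e.a := by exact_mod_cast ha
  have hbr : (0 : ℝ) < e.b := by exact_mod_cast hb
  have h1r : (e.a : ℝ) * e.d = e.b * e.c + h := by exact_mod_cast h1
  have h3r : (e.b : ℝ) * e.c ≤ x := by exact_mod_cast h3
  have hsx : Real.sqrt x ^ 2 = x := Real.sq_sqrt (by linarith)
  have hsx0 : 0 < Real.sqrt x := Real.sqrt_pos.2 (by linarith)
  have hh : (0 : ℝ) ≤ h := Nat.cast_nonneg h
  refine ⟨ha, hb, hc, hd, ?_, ?_⟩
  · have g1 : α * (e.a : ℝ) ^ 2 ≤ (1 + h) * x := by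
      calc α * (e.a : ℝ) ^ 2 = e.a * (α * e.a) := by ring
        _ ≤ e.a * e.d := by gcongr
        _ = e.b * e.c + h := h1r
        _ ≤ x + h * 1 := by linarith
        _ ≤ x + h * x := by gcongr
        _ = (1 + h) * x := by ring
    have g2 : (e.a : ℝ) ^ 2 ≤ ((1 + (1 + h) / α + 1 / γ) * Real.sqrt x) ^ 2 := by
      rw [mul_pow, hsx]
      have g3 : (e.a : ℝ) ^ 2 ≤ (1 + h) / α * x := by
        rw [div_mul_eq_mul_div, le_div_iff₀ hα]
        linarith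
      refine g3.trans ?_
      gcongr
      have u1 : 0 < (1 + (h : ℝ)) / α := by positivity
      have u2 : 0 < 1 / γ := by positivity
      nlinarith
    exact (sq_le_sq₀ har.le (by positivity)).1 g2
  · have g1 : γ * (e.b : ℝ) ^ 2 ≤ x := by
      calc γ * (e.b : ℝ) ^ 2 = e.b * (γ * e.b) := by ring
        _ ≤ e.b * e.c := by gcongr
        _ ≤ x := h3r
    have g2 : (e.b : ℝ) ^ 2 ≤ ((1 + (1 + h) / α + 1 / γ) * Real.sqrt x) ^ 2 := by
      rw [mul_pow, hsx]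
      have g3 : (e.b : ℝ) ^ 2 ≤ 1 / γ * x := by
        rw [div_mul_eq_mul_div, le_div_iff₀ hγ]
        linarith
      refine g3.trans ?_
      gcongr
      have u1 : 0 < (1 + (h : ℝ)) / α := by positivity
      have u2 : 0 < 1 / γ := by positivity
      nlinarith
    exact (sq_le_sq₀ hbr.le (by positivity)).1 g2

/-- `c / (a / gcd)` is bounded -/
theorem ratio {h k n0 : ℕ} {α β γ δ x : ℝ} (hh : 0 < h) (hα : 0 < α) (hβ : 0 < β) (hγ : 0 < γ) (hδ : 0 < δ)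
    (hx : 1 ≤ x) {e : Q4} (he : e ∈ WS h k n0 α β γ δ x) :
    ((e.c / (e.a / Nat.gcd e.a e.b) : ℕ) : ℝ) ≤ δ * (1 + β / γ) * h := by
  obtain ⟨ha, hb, hc, hd, -, -⟩ := sizes hα hγ hx he
  obtain ⟨⟨h1, h2, h3⟩, -, ⟨h4, h5⟩, ⟨h6, h7⟩⟩ := he
  have har : (0 : ℝ) < e.a := by exact_mod_cast ha
  have hbr : (0 : ℝ) < e.b := by exact_mod_cast hb
  have hg : Nat.gcd e.a e.b ∣ h := by
    have h8 : Nat.gcd e.a e.b ∣ e.b * e.c + h := h1 ▸ (Nat.gcd_dvd_left _ _).mul_right _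
    exact (Nat.dvd_add_right ((Nat.gcd_dvd_right _ _).mul_right _)).1 h8
  set g := Nat.gcd e.a e.b with hgd
  have hg0 : 0 < g := Nat.gcd_pos_of_pos_left _ ha
  have hgh : g ≤ h := Nat.le_of_dvd hh hg
  have hgr : (0 : ℝ) < g := by exact_mod_cast hg0
  have hghr : (g : ℝ) ≤ h := by exact_mod_cast hgh
  have hga : g ∣ e.a := Nat.gcd_dvd_left _ _
  have hadiv : ((e.a / g : ℕ) : ℝ) = e.a / g := Nat.cast_div hga hgr.ne'
  have h9 : ((e.c / (e.a / g) : ℕ) : ℝ) ≤ e.c / (e.a / g) := by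
    have := @Nat.cast_div_le ℝ _ _ _ e.c (e.a / g)
    rw [hadiv] at this
    exact this
  refine h9.trans ?_
  have h10 : (e.b : ℝ) ≤ (1 + β / γ) * e.a := by
    have h11 : γ * (e.b : ℝ) ^ 2 ≤ β * (e.a : ℝ) ^ 2 := by
      have h1r : (e.a : ℝ) * e.d = e.b * e.c + h := by exact_mod_cast h1
      calc γ * (e.b : ℝ) ^ 2 = e.b * (γ * e.b) := by ring
        _ ≤ e.b * e.c := by gcongr
        _ ≤ e.a * e.d := by rw [h1r]; linarith [(Nat.cast_nonneg h : (0 : ℝ) ≤ h)]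
        _ ≤ e.a * (β * e.a) := by gcongr
        _ = β * (e.a : ℝ) ^ 2 := by ring
    have h12 : (e.b : ℝ) ^ 2 ≤ ((1 + β / γ) * e.a) ^ 2 := by
      have h13 : (e.b : ℝ) ^ 2 ≤ β / γ * (e.a : ℝ) ^ 2 := by
        rw [div_mul_eq_mul_div, le_div_iff₀ hγ]
        linarith
      refine h13.trans ?_
      rw [mul_pow]
      gcongr
      have u1 : 0 < β / γ := by positivity
      nlinarith
    exact (sq_le_sq₀ hbr.le (by positivity)).1 h12
  calc (e.c : ℝ) / (e.a / g) ≤ δ * e.b / (e.a / g) := by gcongr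
    _ ≤ δ * ((1 + β / γ) * e.a) / (e.a / g) := by gcongr
    _ = δ * (1 + β / γ) * g := by field_simp
    _ ≤ δ * (1 + β / γ) * h := by gcongr

theorem inj_key {h : ℕ} {e e' : Q4} (ha : 0 < e.a) (h1 : e.a * e.d = e.b * e.c + h)
    (h1' : e'.a * e'.d = e'.b * e'.c + h) (hea : e.a = e'.a) (heb : e.b = e'.b)
    (hec : e.c / (e.a / Nat.gcd e.a e.b) = e'.c / (e'.a / Nat.gcd e'.a e'.b)) : e = e' := by
  obtain ⟨a, b, c, d⟩ := e
  obtain ⟨a', b', c', d'⟩ := e'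
  simp only at *
  subst hea heb
  have h2 : b * c ≡ b * c' [MOD a] := by
    have h3 : b * c + h ≡ b * c' + h [MOD a] := by
      rw [← h1, ← h1']
      exact ((Nat.modEq_zero_iff_dvd.2 (dvd_mul_right a d)).trans
        (Nat.modEq_zero_iff_dvd.2 (dvd_mul_right a d')).symm)
    exact Nat.ModEq.add_right_cancel' h h3
  have h4 : c ≡ c' [MOD a / Nat.gcd a b] := Nat.ModEq.cancel_left_div_gcd ha h2
  have h5 : c = c' := by
    rw [← Nat.div_add_mod c (a / Nat.gcd a b), ← Nat.div_add_mod c' (a / Nat.gcd a b), hec, h4]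
  subst h5
  have h6 : a * d = a * d' := by rw [h1, h1']
  have h7 : d = d' := Nat.eq_of_mul_eq_mul_left ha h6
  rw [h7]

theorem WS_finite {h k n0 : ℕ} {α β γ δ x : ℝ} (hh : 0 < h) (hα : 0 < α) (hβ : 0 < β) (hγ : 0 < γ) (hδ : 0 < δ)
    (hx : 1 ≤ x) : (WS h k n0 α β γ δ x).Finite := by
  set K : ℝ := 1 + (1 + h) / α + 1 / γ with hK
  have hinj : Set.InjOn (fun e : Q4 => (e.a, e.b, e.c / (e.a / Nat.gcd e.a e.b))) (WS h k n0 α β γ δ x) := by
    intro e he e' he' hee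
    simp only [Prod.mk.injEq] at hee
    exact inj_key (sizes hα hγ hx he).1 he.1.1 he'.1.1 hee.1 hee.2.1 hee.2.2
  refine Set.Finite.of_finite_image ?_ hinj
  refine ((Set.finite_Iic ⌊K * Real.sqrt x⌋₊).prod ((Set.finite_Iic ⌊K * Real.sqrt x⌋₊).prod
    (Set.finite_Iic ⌊δ * (1 + β / γ) * h⌋₊))).subset ?_
  rintro _ ⟨e, he, rfl⟩
  obtain ⟨-, -, -, -, h1, h2⟩ := sizes hα hγ hx he
  exact ⟨Nat.le_floor h1, Nat.le_floor h2, Nat.le_floor (ratio hh hα hβ hγ hδ hx he)⟩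

open Classical in
/-- matrices with bad `a` or `b` -/
theorem bad_ab (h k n0 : ℕ) (hh : 0 < h) (α β γ δ : ℝ) (hα : 0 < α) (hβ : 0 < β) (hγ : 0 < γ) (hδ : 0 < δ)
    (ε η : ℝ) (hε : 0 < ε) (hη : 0 < η) : ∃ x0 : ℝ, 1 ≤ x0 ∧ ∀ x : ℝ, x0 ≤ x →
    (Set.ncard {e : Q4 | e ∈ WS h k n0 α β γ δ x ∧ ((1 + ε) * Real.log (Real.log x) < (cardFactors e.a : ℝ) ∨
      (1 + ε) * Real.log (Real.log x) < (cardFactors e.b : ℝ))} : ℝ) ≤ η * x := by
  set K : ℝ := 1 + (1 + h) / α + 1 / γ with hK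
  have hhr : (0 : ℝ) ≤ h := Nat.cast_nonneg h
  have hK1 : 1 ≤ K := by
    have u1 : 0 < (1 + (h : ℝ)) / α := by positivity
    have u2 : 0 < 1 / γ := by positivity
    rw [hK]; linarith
  set M : ℕ := ⌊δ * (1 + β / γ) * h⌋₊ with hM
  obtain ⟨Y0, hY0, hfew⟩ := few_omega ε (η / (2 * (M + 1) * K ^ 2)) hε (by positivity)
  refine ⟨max (max 16 (Y0 ^ 2)) (K ^ 2), (by norm_num : (1 : ℝ) ≤ 16).trans ((le_max_left _ _).trans (le_max_left _ _)), ?_⟩
  intro x hx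
  have hx16 : 16 ≤ x := ((le_max_left _ _).trans (le_max_left _ _)).trans hx
  have hxY : Y0 ^ 2 ≤ x := ((le_max_right _ _).trans (le_max_left _ _)).trans hx
  have hxK : K ^ 2 ≤ x := (le_max_right _ _).trans hx
  have hx1 : 1 ≤ x := by linarith
  have hsx : Real.sqrt x ^ 2 = x := Real.sq_sqrt (by linarith)
  have hsx4 : 4 ≤ Real.sqrt x := by
    rw [show (4 : ℝ) = Real.sqrt 16 by rw [show (16 : ℝ) = 4 ^ 2 by norm_num]; simp]
    exact Real.sqrt_le_sqrt hx16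
  have hsY : Y0 ≤ Real.sqrt x := Real.le_sqrt_of_sq_le hxY
  have hsK : K ≤ Real.sqrt x := Real.le_sqrt_of_sq_le hxK
  set Y : ℝ := K * Real.sqrt x with hY
  have hYY0 : Y0 ≤ Y := by rw [hY]; nlinarith
  have hYx : Y ≤ x := by
    rw [hY]
    calc K * Real.sqrt x ≤ Real.sqrt x * Real.sqrt x := by gcongr
      _ = x := by rw [← sq, hsx]
  have hY4 : 4 ≤ Y := by rw [hY]; nlinarith
  have hll : Real.log (Real.log Y) ≤ Real.log (Real.log x) := by
    have h3 : 1 < Real.log Y := by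
      have h4 : Real.exp 1 < Y := by
        have := Real.exp_one_lt_d9
        linarith
      have := Real.log_lt_log (Real.exp_pos 1) h4
      rwa [Real.log_exp] at this
    apply Real.log_le_log (by linarith)
    exact Real.log_le_log (by linarith) hYx
  set B := (Icc 1 ⌊Y⌋₊).filter (fun n => (1 + ε) * Real.log (Real.log Y) < (cardFactors n : ℝ)) with hB
  have hBc := hfew Y hYY0
  rw [← hB] at hBc
  set I := Icc 1 ⌊Y⌋₊ with hI
  have hIc : (I.card : ℝ) ≤ Y := by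
    rw [hI, Nat.card_Icc]
    simp only [Nat.add_sub_cancel]
    exact Nat.floor_le (by linarith)
  set F : Finset (ℕ × ℕ × ℕ) := (B ×ˢ (I ×ˢ range (M + 1))) ∪ (I ×ˢ (B ×ˢ range (M + 1))) with hF
  set S := {e : Q4 | e ∈ WS h k n0 α β γ δ x ∧ ((1 + ε) * Real.log (Real.log x) < (cardFactors e.a : ℝ) ∨
      (1 + ε) * Real.log (Real.log x) < (cardFactors e.b : ℝ))} with hS
  have hcard : S.ncard ≤ F.card := by
    have h1 : S.ncard ≤ (F : Set (ℕ × ℕ × ℕ)).ncard := by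
      refine Set.ncard_le_ncard_of_injOn (fun e : Q4 => (e.a, e.b, e.c / (e.a / Nat.gcd e.a e.b))) ?_ ?_
        (Finset.finite_toSet _)
      · rintro e ⟨he, hbad⟩
        obtain ⟨ha, hb, -, -, h1, h2⟩ := sizes hα hγ hx1 he
        have h3 : e.c / (e.a / Nat.gcd e.a e.b) ≤ M := Nat.le_floor (ratio hh hα hβ hγ hδ hx1 he)
        have haI : e.a ∈ I := by rw [hI, mem_Icc]; exact ⟨ha, Nat.le_floor h1⟩
        have hbI : e.b ∈ I := by rw [hI, mem_Icc]; exact ⟨hb, Nat.le_floor h2⟩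
        have hr : e.c / (e.a / Nat.gcd e.a e.b) ∈ range (M + 1) := mem_range.2 (by omega)
        have hmul : (1 + ε) * Real.log (Real.log Y) ≤ (1 + ε) * Real.log (Real.log x) := by gcongr
        rw [hF, Finset.mem_coe, mem_union, mem_product, mem_product, mem_product, mem_product]
        rcases hbad with hb1 | hb1
        · left
          exact ⟨by rw [hB, mem_filter]; exact ⟨haI, hmul.trans_lt hb1⟩, hbI, hr⟩
        · right
          exact ⟨haI, by rw [hB, mem_filter]; exact ⟨hbI, hmul.trans_lt hb1⟩, hr⟩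
      · intro e he e' he' hee
        simp only [Prod.mk.injEq] at hee
        exact inj_key (sizes hα hγ hx1 he.1).1 he.1.1.1 he'.1.1.1 hee.1 hee.2.1 hee.2.2
    rwa [Set.ncard_coe_finset] at h1
  have hFc : (F.card : ℝ) ≤ 2 * (B.card * (I.card * (M + 1))) := by
    have h1 : F.card ≤ 2 * (B.card * (I.card * (M + 1))) := by
      refine (card_union_le _ _).trans ?_
      rw [card_product, card_product, card_product, card_product, card_range]
      apply le_of_eq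
      ring
    exact_mod_cast h1
  calc (S.ncard : ℝ) ≤ F.card := by exact_mod_cast hcard
    _ ≤ 2 * (B.card * (I.card * (M + 1))) := hFc
    _ ≤ 2 * ((η / (2 * (M + 1) * K ^ 2) * Y) * (Y * (M + 1))) := by gcongr
    _ = η * x := by
        rw [hY]
        have : (M : ℝ) + 1 ≠ 0 := by positivity
        have : K ≠ 0 := by linarith
        calc 2 * (η / (2 * (M + 1) * K ^ 2) * (K * Real.sqrt x) * (K * Real.sqrt x * (M + 1)))
            = η * (Real.sqrt x ^ 2) := by field_simp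
          _ = η * x := by rw [hsx]

/-- all four -/
theorem bad_all (h k n0 : ℕ) (hh : 0 < h) (α β γ δ : ℝ) (hα : 0 < α) (hβ : 0 < β) (hγ : 0 < γ) (hδ : 0 < δ)
    (ε η : ℝ) (hε : 0 < ε) (hη : 0 < η) : ∃ x0 : ℝ, 1 ≤ x0 ∧ ∀ x : ℝ, x0 ≤ x →
    (Set.ncard {e : Q4 | e ∈ WS h k n0 α β γ δ x ∧
      ¬ ((cardFactors e.a : ℝ) ≤ (1 + ε) * Real.log (Real.log x) ∧
        (cardFactors e.b : ℝ) ≤ (1 + ε) * Real.log (Real.log x) ∧
        (cardFactors e.c : ℝ) ≤ (1 + ε) * Real.log (Real.log x) ∧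
        (cardFactors e.d : ℝ) ≤ (1 + ε) * Real.log (Real.log x))} : ℝ) ≤ η * x := by
  obtain ⟨x1, hx1, h1⟩ := bad_ab h k n0 hh α β γ δ hα hβ hγ hδ ε (η / 2) hε (by positivity)
  obtain ⟨x2, hx2, h2⟩ := bad_ab h k n0 hh β⁻¹ α⁻¹ δ⁻¹ γ⁻¹ (by positivity) (by positivity) (by positivity)
    (by positivity) ε (η / 2) hε (by positivity)
  refine ⟨max x1 x2, hx1.trans (le_max_left _ _), fun x hx => ?_⟩
  have hxx1 := (le_max_left _ _).trans hx
  have hxx2 := (le_max_right _ _).trans hx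
  have hx0 : 1 ≤ x := hx1.trans hxx1
  have g1 := h1 x hxx1
  have g2 := h2 x hxx2
  set L := (1 + ε) * Real.log (Real.log x) with hL
  set S1 := {e : Q4 | e ∈ WS h k n0 α β γ δ x ∧ (L < (cardFactors e.a : ℝ) ∨ L < (cardFactors e.b : ℝ))} with hS1
  set S2 := {e : Q4 | e ∈ WS h k n0 β⁻¹ α⁻¹ δ⁻¹ γ⁻¹ x ∧
    (L < (cardFactors e.a : ℝ) ∨ L < (cardFactors e.b : ℝ))} with hS2
  set S3 := {e : Q4 | e ∈ WS h k n0 α β γ δ x ∧ (L < (cardFactors e.d : ℝ) ∨ L < (cardFactors e.c : ℝ))} with hS3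
  have hf1 : (WS h k n0 α β γ δ x).Finite := WS_finite hh hα hβ hγ hδ hx0
  have hf2 : (WS h k n0 β⁻¹ α⁻¹ δ⁻¹ γ⁻¹ x).Finite := WS_finite hh (by positivity) (by positivity)
    (by positivity) (by positivity) hx0
  have hsub : {e : Q4 | e ∈ WS h k n0 α β γ δ x ∧
      ¬ ((cardFactors e.a : ℝ) ≤ L ∧ (cardFactors e.b : ℝ) ≤ L ∧ (cardFactors e.c : ℝ) ≤ L ∧
        (cardFactors e.d : ℝ) ≤ L)} ⊆ S1 ∪ S3 := by
    rintro e ⟨he, hn⟩
    by_cases hc1 : L < (cardFactors e.a : ℝ) ∨ L < (cardFactors e.b : ℝ)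
    · left; exact ⟨he, hc1⟩
    · right
      refine ⟨he, ?_⟩
      by_contra hcon
      push Not at hc1 hcon
      exact hn ⟨hc1.1, hc1.2, hcon.2, hcon.1⟩
  have h3 : S3.ncard ≤ S2.ncard := by
    refine Set.ncard_le_ncard_of_injOn (fun e : Q4 => (⟨e.d, e.c, e.b, e.a⟩ : Q4)) ?_ ?_
      (hf2.subset fun e he => he.1)
    · rintro e ⟨he, hbad⟩
      obtain ⟨⟨u1, u2, u3⟩, ⟨u4, u5⟩, ⟨u6, u7⟩, ⟨u8, u9⟩⟩ := he
      refine ⟨⟨⟨?_, ?_, ?_⟩, ⟨?_, ?_⟩, ⟨?_, ?_⟩, ⟨?_, ?_⟩⟩, ?_⟩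
      · simp only; rw [mul_comm e.d, mul_comm e.c]; exact u1
      · simp only; rw [mul_comm e.c]; exact u2
      · simp only; rw [mul_comm e.c]; exact u3
      · simp only; rw [mul_comm e.c]; exact u4
      · simp only; rw [mul_comm e.c]; exact u5
      · simp only
        rw [inv_mul_le_iff₀ hβ]; exact u7
      · simp only
        rw [le_inv_mul_iff₀ hα]; exact u6
      · simp only
        rw [inv_mul_le_iff₀ hδ]; exact u9
      · simp only
        rw [le_inv_mul_iff₀ hγ]; exact u8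
      · exact hbad
    · rintro ⟨a, b, c, d⟩ _ ⟨a', b', c', d'⟩ _ hee
      simp only [Q4.mk.injEq] at hee ⊢
      tauto
  have h4 : (Set.ncard {e : Q4 | e ∈ WS h k n0 α β γ δ x ∧
      ¬ ((cardFactors e.a : ℝ) ≤ L ∧ (cardFactors e.b : ℝ) ≤ L ∧ (cardFactors e.c : ℝ) ≤ L ∧
        (cardFactors e.d : ℝ) ≤ L)} : ℝ) ≤ S1.ncard + S3.ncard := by
    have h5 := Set.ncard_le_ncard hsub ((hf1.subset fun e he => he.1).union (hf1.subset fun e he => he.1))
    exact_mod_cast h5.trans (Set.ncard_union_le _ _)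
  have h3r : (S3.ncard : ℝ) ≤ S2.ncard := by exact_mod_cast h3
  linarith

end Pool.Agent.Spc
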