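import Pool.Agent.Lib_MP_92ef0c_spi.TKI
import Pool.Agent.Lib_MP_92ef0c_spi.Mert

/-!
# Few integers with more than `(1 + ε) log log Y` prime factors (with multiplicity)
-/

set_option autoImplicit false

namespace Pool.Agent.Spc

open Finset ArithmeticFunction Pool.Agent.SplI

theorem geo (p : ℕ) (hp : 2 ≤ p) (K : ℕ) :
    ∑ k ∈ Icc 2 K, 1 / (p : ℝ) ^ k ≤ 1 / ((p : ℝ) - 1) - 1 / p := by
  have hp2 : (2 : ℝ) ≤ p := by exact_mod_cast hp
  have h1 : (1 : ℝ) / ((p : ℝ) - 1) - 1 / p = 1 / (p * ((p : ℝ) - 1)) := by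
    have : (p : ℝ) - 1 ≠ 0 := by linarith
    have : (p : ℝ) ≠ 0 := by linarith
    field_simp
    ring
  have key : ∀ K : ℕ, 1 ≤ K → ∑ k ∈ Icc 2 K, 1 / (p : ℝ) ^ k =
      1 / (p * ((p : ℝ) - 1)) - 1 / ((p : ℝ) ^ K * ((p : ℝ) - 1)) := by
    intro K hK
    induction K, hK using Nat.le_induction with
    | base => simp
    | succ K hK ih =>
      rw [sum_Icc_succ_top (by omega), ih]
      have h2 : (p : ℝ) - 1 ≠ 0 := by linarith
      have h3 : (p : ℝ) ≠ 0 := by linarith
      have h4 : (p : ℝ) ^ K ≠ 0 := pow_ne_zero _ h3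
      field_simp
      ring
  rcases Nat.eq_zero_or_pos K with h | h
  · subst h
    rw [h1]
    have : (0 : ℝ) < p * ((p : ℝ) - 1) := mul_pos (by linarith) (by linarith)
    simp only [Nat.ofNat_pos, Icc_eq_empty_of_lt, sum_empty]
    positivity
  · rw [h1, key K h]
    have h5 : (0 : ℝ) < (p : ℝ) - 1 := by linarith
    have : 0 ≤ 1 / ((p : ℝ) ^ K * ((p : ℝ) - 1)) := by positivity
    linarith

theorem tele (N : ℕ) : ∑ p ∈ Icc 2 N, (1 / ((p : ℝ) - 1) - 1 / p) ≤ 1 := by
  have key : ∀ N : ℕ, 1 ≤ N → ∑ p ∈ Icc 2 N, (1 / ((p : ℝ) - 1) - 1 / p) = 1 - 1 / N := by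
    intro N hN
    induction N, hN using Nat.le_induction with
    | base => simp
    | succ N hN ih =>
      rw [sum_Icc_succ_top (by omega), ih]
      push_cast
      ring
  rcases Nat.eq_zero_or_pos N with h | h
  · subst h; simp
  · rw [key N h]
    have : (0 : ℝ) ≤ 1 / N := by positivity
    linarith

/-- the excess `Ω - ω` -/
theorem excess_le (N n : ℕ) (hn : 1 ≤ n) (hnN : n ≤ N) :
    (cardFactors n : ℝ) ≤ cardDistinctFactors n +
      ∑ p ∈ Icc 2 N, ∑ k ∈ Icc 2 N, (if p ^ k ∣ n then (1 : ℝ) else 0) := by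
  have h1 : cardFactors n = ∑ p ∈ n.primeFactors, n.factorization p := by
    rw [cardFactors_eq_sum_factorization]
    rfl
  have h2 : cardDistinctFactors n = n.primeFactors.card := by
    rw [cardDistinctFactors_apply]
    rfl
  have h3 : ∀ p ∈ n.primeFactors, (n.factorization p : ℝ) ≤ 1 +
      ∑ k ∈ Icc 2 N, (if p ^ k ∣ n then (1 : ℝ) else 0) := by
    intro p hp
    have hpp := Nat.prime_of_mem_primeFactors hp
    rw [← sum_filter, sum_const, nsmul_eq_mul, mul_one]
    have hv : n.factorization p ≤ N := by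
      have h4 : n.factorization p < p ^ n.factorization p := Nat.lt_pow_self hpp.one_lt
      have h5 : p ^ n.factorization p ≤ n := Nat.ordProj_le p (by omega)
      omega
    have h6 : Icc 2 (n.factorization p) ⊆ (Icc 2 N).filter (fun k => p ^ k ∣ n) := by
      intro k hk
      rw [mem_Icc] at hk
      rw [mem_filter, mem_Icc]
      exact ⟨⟨hk.1, hk.2.trans hv⟩, (pow_dvd_pow p hk.2).trans (Nat.ordProj_dvd n p)⟩
    have h7 := card_le_card h6
    rw [Nat.card_Icc] at h7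
    have h8 : n.factorization p ≤ 1 + ((Icc 2 N).filter (fun k => p ^ k ∣ n)).card := by omega
    exact_mod_cast h8
  rw [h1, h2]
  push_cast
  calc ∑ p ∈ n.primeFactors, (n.factorization p : ℝ)
      ≤ ∑ p ∈ n.primeFactors, (1 + ∑ k ∈ Icc 2 N, (if p ^ k ∣ n then (1 : ℝ) else 0)) := sum_le_sum h3
    _ = (n.primeFactors.card : ℝ) + ∑ p ∈ n.primeFactors, ∑ k ∈ Icc 2 N, (if p ^ k ∣ n then (1 : ℝ) else 0) := by
        rw [sum_add_distrib]; simp
    _ ≤ (n.primeFactors.card : ℝ) + ∑ p ∈ Icc 2 N, ∑ k ∈ Icc 2 N, (if p ^ k ∣ n then (1 : ℝ) else 0) := by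
        refine add_le_add le_rfl ?_
        refine sum_le_sum_of_subset_of_nonneg ?_ ?_
        · intro p hp
          have hpp := Nat.prime_of_mem_primeFactors hp
          rw [mem_Icc]
          exact ⟨hpp.two_le, (Nat.le_of_mem_primeFactors hp).trans hnN⟩
        · intro i _ _
          refine sum_nonneg (fun k _ => ?_)
          split <;> norm_num

theorem excess_sum (N : ℕ) :
    ∑ n ∈ Icc 1 N, ∑ p ∈ Icc 2 N, ∑ k ∈ Icc 2 N, (if p ^ k ∣ n then (1 : ℝ) else 0) ≤ N := by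
  rw [sum_comm]
  have h1 : ∀ p ∈ Icc 2 N, ∑ n ∈ Icc 1 N, ∑ k ∈ Icc 2 N, (if p ^ k ∣ n then (1 : ℝ) else 0) ≤
      N * (1 / ((p : ℝ) - 1) - 1 / p) := by
    intro p hp
    rw [mem_Icc] at hp
    rw [sum_comm]
    have h2 : ∀ k ∈ Icc 2 N, ∑ n ∈ Icc 1 N, (if p ^ k ∣ n then (1 : ℝ) else 0) ≤ N * (1 / (p : ℝ) ^ k) := by
      intro k _
      rw [← sum_filter, sum_const, nsmul_eq_mul, mul_one]
      have h3 : ((Icc 1 N).filter (fun n => p ^ k ∣ n)).card = N / p ^ k := by
        have := Nat.Ioc_filter_dvd_card_eq_div N (p ^ k)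
        rw [← this]
        rfl
      rw [h3, mul_one_div]
      have := @Nat.cast_div_le ℝ _ _ _ N (p ^ k)
      push_cast at this
      exact this
    calc ∑ k ∈ Icc 2 N, ∑ n ∈ Icc 1 N, (if p ^ k ∣ n then (1 : ℝ) else 0)
        ≤ ∑ k ∈ Icc 2 N, N * (1 / (p : ℝ) ^ k) := sum_le_sum h2
      _ = N * ∑ k ∈ Icc 2 N, 1 / (p : ℝ) ^ k := by rw [mul_sum]
      _ ≤ _ := by
          gcongr
          exact geo p hp.1 N
  refine (sum_le_sum h1).trans ?_
  rw [← mul_sum]
  have := tele N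
  have hN : (0 : ℝ) ≤ N := Nat.cast_nonneg N
  nlinarith

/-- at most two more distinct primes -/
theorem omega_le_omI (Y : ℝ) (n : ℕ) (hn : 1 ≤ n) (hnY : (n : ℝ) ≤ Y) :
    (cardDistinctFactors n : ℝ) ≤ omI 2 (Real.sqrt Y) n + 2 := by
  classical
  have h2 : cardDistinctFactors n = n.primeFactors.card := by
    rw [cardDistinctFactors_apply]
    rfl
  have hY : 0 ≤ Y := (Nat.cast_nonneg n).trans hnY
  set A := (PrI 2 (Real.sqrt Y)).filter (fun p => p ∣ n) with hA
  set B := n.primeFactors.filter (fun p : ℕ => Real.sqrt Y < (p : ℝ)) with hB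
  have hB1 : B.card ≤ 1 := by
    rw [card_le_one]
    intro p hp p' hp'
    by_contra hne
    rw [hB, mem_filter] at hp hp'
    have hpp := Nat.prime_of_mem_primeFactors hp.1
    have hpp' := Nat.prime_of_mem_primeFactors hp'.1
    have hd : p * p' ∣ n := Nat.Coprime.mul_dvd_of_dvd_of_dvd ((Nat.coprime_primes hpp hpp').2 hne)
      (Nat.dvd_of_mem_primeFactors hp.1) (Nat.dvd_of_mem_primeFactors hp'.1)
    have hle : p * p' ≤ n := Nat.le_of_dvd (by omega) hd
    have hle' : (p : ℝ) * p' ≤ n := by exact_mod_cast hle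
    have h5 : Y < (p : ℝ) * p' := by
      calc Y = Real.sqrt Y * Real.sqrt Y := (Real.mul_self_sqrt hY).symm
        _ < (p : ℝ) * p' := by
            have h0 := Real.sqrt_nonneg Y
            have := hp.2
            have := hp'.2
            nlinarith
    linarith
  have hsub : n.primeFactors ⊆ {2} ∪ (A ∪ B) := by
    intro p hp
    have hpp := Nat.prime_of_mem_primeFactors hp
    rw [mem_union, mem_union]
    by_cases h1 : p = 2
    · left; simp [h1]
    · right
      by_cases h3 : Real.sqrt Y < (p : ℝ)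
      · right
        rw [hB, mem_filter]
        exact ⟨hp, h3⟩
      · left
        push Not at h3
        rw [hA, mem_filter]
        refine ⟨?_, Nat.dvd_of_mem_primeFactors hp⟩
        unfold PrI
        rw [mem_filter, mem_Icc]
        refine ⟨⟨hpp.one_le, Nat.le_floor h3⟩, hpp, ?_⟩
        have : 2 < p := lt_of_le_of_ne hpp.two_le (Ne.symm h1)
        exact_mod_cast this
  have h6 : n.primeFactors.card ≤ 1 + (A.card + B.card) := by
    refine (card_le_card hsub).trans ((card_union_le _ _).trans ?_)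
    rw [card_singleton]
    gcongr
    exact card_union_le _ _
  have h7 : n.primeFactors.card ≤ A.card + 2 := by omega
  rw [h2]
  unfold omI
  exact_mod_cast h7

open Classical in
/-- few integers with many prime factors -/
theorem few_omega (ε η : ℝ) (hε : 0 < ε) (hη : 0 < η) : ∃ Y0 : ℝ, 3 ≤ Y0 ∧ ∀ Y : ℝ, Y0 ≤ Y →
    (((Icc 1 ⌊Y⌋₊).filter (fun n => (1 + ε) * Real.log (Real.log Y) < (cardFactors n : ℝ))).card : ℝ) ≤ η * Y := by
  obtain ⟨C1, hC1, htk⟩ := tki
  obtain ⟨C2, hC2, hlr⟩ := Lr_bounds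
  have hlim : Filter.Tendsto (fun Y : ℝ => Real.log (Real.log Y)) Filter.atTop Filter.atTop :=
    Real.tendsto_log_atTop.comp Real.tendsto_log_atTop
  set C3 : ℝ := C2 - Real.log (Real.log 2) with hC3
  have hll2 : Real.log (Real.log 2) < 0 := by
    apply Real.log_neg (Real.log_pos (by norm_num))
    have := Real.log_two_lt_d9
    linarith
  have hC3p : 0 < C3 := by rw [hC3]; linarith
  -- threshold
  set M : ℝ := max 1 (max (8 * (C3 + 2) / ε) (max (8 / (ε * η)) (max (32 * C1 * (C3 + 2) / (ε ^ 2 * η)) (2 * C3 + 2)))) with hM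
  obtain ⟨Y1, hY1⟩ := Filter.eventually_atTop.1 (hlim.eventually_ge_atTop M)
  refine ⟨max Y1 16, (by norm_num : (3 : ℝ) ≤ 16).trans (le_max_right _ _), fun Y hY => ?_⟩
  have hY16 : 16 ≤ Y := (le_max_right _ _).trans hY
  have hYM := hY1 Y ((le_max_left _ _).trans hY)
  set L := Real.log (Real.log Y) with hL
  have hM1 : 1 ≤ L := (le_max_left _ _).trans hYM
  have hM2 : 8 * (C3 + 2) / ε ≤ L := ((le_max_left _ _).trans (le_max_right _ _)).trans hYM
  have hM3 : 8 / (ε * η) ≤ L :=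
    (((le_max_left _ _).trans (le_max_right _ _)).trans (le_max_right _ _)).trans hYM
  have hM4 : 32 * C1 * (C3 + 2) / (ε ^ 2 * η) ≤ L :=
    ((((le_max_left _ _).trans (le_max_right _ _)).trans (le_max_right _ _)).trans (le_max_right _ _)).trans hYM
  have hsq4 : 4 ≤ Real.sqrt Y := by
    rw [show (4 : ℝ) = Real.sqrt 16 by rw [show (16 : ℝ) = 4 ^ 2 by norm_num]; simp]
    exact Real.sqrt_le_sqrt hY16
  have hsq2 : 2 ≤ Real.sqrt Y := by linarith
  have hY0 : 0 < Y := by linarith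
  have hsqsq : Real.sqrt Y ^ 2 = Y := Real.sq_sqrt hY0.le
  have hlr1 := hlr 2 (Real.sqrt Y) le_rfl hsq2
  have hLr : Lr 2 (Real.sqrt Y) ≤ L + C3 := by
    have h1 := (abs_le.1 hlr1).2
    have h2 : Real.log (Real.log (Real.sqrt Y)) ≤ L := by
      rw [hL]
      have h3 : 1 < Real.log (Real.sqrt Y) := by
        have h4 : Real.exp 1 < Real.sqrt Y := by
          have := Real.exp_one_lt_d9
          linarith
        have := Real.log_lt_log (Real.exp_pos 1) h4
        rwa [Real.log_exp] at this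
      apply Real.log_le_log (by linarith)
      apply Real.log_le_log (by linarith)
      rw [Real.sqrt_le_left (by linarith)]
      nlinarith
    rw [hC3]
    linarith
  have htk1 := htk 2 (Real.sqrt Y) Y le_rfl hsq2 hsqsq.le
  -- the bad set is covered
  set N := ⌊Y⌋₊ with hN
  have hNY : (N : ℝ) ≤ Y := Nat.floor_le hY0.le
  set E : ℕ → ℝ := fun n => ∑ p ∈ Icc 2 N, ∑ k ∈ Icc 2 N, (if p ^ k ∣ n then (1 : ℝ) else 0) with hE
  set B := (Icc 1 N).filter (fun n => (1 + ε) * L < (cardFactors n : ℝ)) with hB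
  set B1 := (Icc 1 N).filter (fun n => ε / 4 * L < E n) with hB1
  set B2 := (Icc 1 N).filter (fun n => (ε / 4 * L) ^ 2 < (omI 2 (Real.sqrt Y) n - Lr 2 (Real.sqrt Y)) ^ 2) with hB2
  have hsub : B ⊆ B1 ∪ B2 := by
    intro n hn
    rw [hB, mem_filter, mem_Icc] at hn
    obtain ⟨⟨hn1, hn2⟩, hn3⟩ := hn
    rw [mem_union]
    by_contra hcon
    push Not at hcon
    obtain ⟨hc1, hc2⟩ := hcon
    rw [hB1, mem_filter, mem_Icc] at hc1
    rw [hB2, mem_filter, mem_Icc] at hc2
    push Not at hc1 hc2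
    have hc1' := hc1 ⟨hn1, hn2⟩
    have hc2' := hc2 ⟨hn1, hn2⟩
    have h1 := excess_le N n hn1 hn2
    have hnY : (n : ℝ) ≤ Y := le_trans (by exact_mod_cast hn2) hNY
    have h2 := omega_le_omI Y n hn1 hnY
    have h3 : omI 2 (Real.sqrt Y) n - Lr 2 (Real.sqrt Y) ≤ ε / 4 * L := by
      have h4 : 0 ≤ ε / 4 * L := by positivity
      exact le_trans (le_abs_self _) (abs_le_of_sq_le_sq hc2' h4)
    have h5 : (C3 + 2) ≤ ε / 8 * L := by
      rw [div_le_iff₀ hε] at hM2
      linarith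
    have h6 : E n ≤ ε / 4 * L := hc1'
    have h7 : (cardFactors n : ℝ) ≤ cardDistinctFactors n + E n := h1
    nlinarith
  have hc1 : (B1.card : ℝ) * (ε / 4 * L) ≤ Y := by
    have h1 : (B1.card : ℝ) * (ε / 4 * L) ≤ ∑ n ∈ B1, E n := by
      rw [← nsmul_eq_mul]
      apply card_nsmul_le_sum
      intro n hn
      rw [hB1, mem_filter] at hn
      exact hn.2.le
    have h2 : ∑ n ∈ B1, E n ≤ ∑ n ∈ Icc 1 N, E n := by
      apply sum_le_sum_of_subset_of_nonneg (filter_subset _ _)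
      intro n _ _
      refine sum_nonneg (fun p _ => sum_nonneg (fun k _ => ?_))
      split <;> norm_num
    exact h1.trans (h2.trans ((excess_sum N).trans hNY))
  have hc2 : (B2.card : ℝ) * (ε / 4 * L) ^ 2 ≤ C1 * Y * (L + C3 + 1) := by
    have h1 : (B2.card : ℝ) * (ε / 4 * L) ^ 2 ≤
        ∑ n ∈ B2, (omI 2 (Real.sqrt Y) n - Lr 2 (Real.sqrt Y)) ^ 2 := by
      rw [← nsmul_eq_mul]
      apply card_nsmul_le_sum
      intro n hn
      rw [hB2, mem_filter] at hn
      exact hn.2.le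
    have h2 : ∑ n ∈ B2, (omI 2 (Real.sqrt Y) n - Lr 2 (Real.sqrt Y)) ^ 2 ≤
        ∑ n ∈ Icc 1 N, (omI 2 (Real.sqrt Y) n - Lr 2 (Real.sqrt Y)) ^ 2 := by
      apply sum_le_sum_of_subset_of_nonneg (filter_subset _ _)
      intro n _ _
      positivity
    refine h1.trans (h2.trans (htk1.trans ?_))
    gcongr
  have hcard : (B.card : ℝ) ≤ B1.card + B2.card := by
    exact_mod_cast (card_le_card hsub).trans (card_union_le _ _)
  have hL0 : 0 < L := by linarith
  have g1 : (B1.card : ℝ) ≤ η / 2 * Y := by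
    have h1 : 8 ≤ L * (ε * η) := by rwa [div_le_iff₀ (by positivity)] at hM3
    have h2 : (B1.card : ℝ) * (ε / 4 * L) ≤ (η / 2 * Y) * (ε / 4 * L) := by
      refine hc1.trans ?_
      have : Y * 8 ≤ Y * (L * (ε * η)) := by gcongr
      nlinarith
    exact le_of_mul_le_mul_right h2 (by positivity)
  have g2 : (B2.card : ℝ) ≤ η / 2 * Y := by
    have h1 : 32 * C1 * (C3 + 2) ≤ L * (ε ^ 2 * η) := by rwa [div_le_iff₀ (by positivity)] at hM4
    have h2 : (B2.card : ℝ) * (ε / 4 * L) ^ 2 ≤ (η / 2 * Y) * (ε / 4 * L) ^ 2 := by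
      refine hc2.trans ?_
      have h3 : L + C3 + 1 ≤ (C3 + 2) * L := by nlinarith
      have h4 : C1 * Y * (L + C3 + 1) ≤ C1 * Y * ((C3 + 2) * L) := by gcongr
      refine h4.trans ?_
      have h5 : (32 * C1 * (C3 + 2)) * (Y * L) ≤ (L * (ε ^ 2 * η)) * (Y * L) := by gcongr
      calc C1 * Y * ((C3 + 2) * L) = ((32 * C1 * (C3 + 2)) * (Y * L)) / 32 := by ring
        _ ≤ ((L * (ε ^ 2 * η)) * (Y * L)) / 32 := by gcongr
        _ = (η / 2 * Y) * (ε / 4 * L) ^ 2 := by ring
    exact le_of_mul_le_mul_right h2 (by positivity)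
  linarith

end Pool.Agent.Spc
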